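import Pool.Agent.H80.AN.TargetsA

/-!
# Row FMO of the board allh_modules: frames are monotone in the ratio
-/

set_option autoImplicit false

namespace Pool.Agent.H75.AN

open MeasureTheory Metric Set Filter Topology Pool.Agent.H87.SN Pool.Agent.H87.SH Pool.Agent.H87.AX
open Pool.Agent.H22.AN
open scoped ContDiff RealInnerProductSpace ENNReal

/-- The density is nondecreasing in the radius. -/
theorem th_mono (hMNT : T_MNT) {d m : ℕ} {G : V d → V d →L[ℝ] E m} {Λ : ℝ} (hG : GD Λ G)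
    (x : V d) {r R : ℝ} (hr : 0 < r) (hrR : r ≤ R) (hR : ball x R ⊆ ball 0 2) :
    th G x r ≤ th G x R := by
  rcases hrR.eq_or_lt with h | h
  · rw [h]
  · have h1 := (hMNT d m G hG.memG hG.stat x r R hr h hR).2
    have h2 : 0 ≤ ∫ y in ball x R \ ball x r, (‖y - x‖ ^ (d + 2))⁻¹ * ‖G y (y - x)‖ ^ 2 :=
      integral_nonneg fun y => by positivity
    linarith

/-- Row FMO. -/
theorem pf_FMO (hMNT : T_MNT) : T_FMO := by
  intro d m Λ G hG τ₁ τ₂ om e x₀ h1 h12 h2 hF
  refine ⟨hF.x0, hF.ch, hF.nz, ?_⟩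
  have h3 := th_mono hMNT hG 0 h1 h12 (ball_subset_ball (by linarith))
  have h4 := hF.p0
  linarith

end Pool.Agent.H75.AN
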